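import Pool.Agent.H73.TS.TargetsB

/-! Density from counting, arbitrary convex windows. -/

set_option autoImplicit false

open MeasureTheory Set Metric Filter
open scoped ENNReal Topology Pointwise

namespace Pool.Agent.H97.TS

open Pool.Agent.H73.TS

theorem liq (hASY : T_ASY) : T_LIQ := by
  intro d L K T hd hK H Om hOc hOv hO0
  have hOm0 : (0 : E d) ∈ Om := interior_subset hO0
  -- a closed ball that absorbs `K`
  obtain ⟨κ, hκ0, hκ⟩ : ∃ κ : ℝ, 0 < κ ∧ ∀ k ∈ K, ∃ z ∈ Om, -k = κ • z := by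
    obtain ⟨C, hC⟩ := hK.isBounded.exists_norm_le
    obtain ⟨ε, hε, hεO⟩ := Metric.mem_nhds_iff.1 (mem_interior_iff_mem_nhds.1 hO0)
    obtain ⟨κ, hκ⟩ : ∃ κ : ℝ, κ = (max C 0 + 1) / ε * 2 := ⟨_, rfl⟩
    have hm : 0 ≤ max C 0 := le_max_right _ _
    have hκ0 : 0 < κ := by rw [hκ]; positivity
    refine ⟨κ, hκ0, fun k hk => ⟨κ⁻¹ • (-k), hεO ?_, ?_⟩⟩
    · rw [mem_ball, dist_zero_right, norm_smul, norm_neg, Real.norm_eq_abs,
        abs_of_pos (inv_pos.2 hκ0), inv_mul_lt_iff₀ hκ0]
      have h1 : ‖k‖ ≤ max C 0 := (hC k hk).trans (le_max_left _ _)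
      have h2 : κ * ε = (max C 0 + 1) * 2 := by
        rw [hκ]; field_simp
      rw [h2]
      linarith
    · rw [smul_smul, mul_inv_cancel₀ hκ0.ne', one_smul]
  obtain ⟨B, hB⟩ : ∃ B : Set (E d), B = (fun x => L x) '' Om := ⟨_, rfl⟩
  have hBc : IsCompact B := by
    rw [hB]; exact hOc.image L.continuous
  have hBn : B.Nonempty := by
    rw [hB]; exact ⟨_, 0, hOm0, rfl⟩
  have hAs := hASY d B hBc hBn
  obtain ⟨V, hV⟩ : ∃ V : ℝ≥0∞, V = volume Om := ⟨_, rfl⟩
  have hV0 : V ≠ 0 := by
    rw [hV]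
    exact (MeasureTheory.Measure.measure_pos_of_mem_nhds _ (mem_interior_iff_mem_nhds.1 hO0)).ne'
  have hVt : V ≠ ⊤ := by
    rw [hV]; exact hOc.measure_lt_top.ne
  have hBvol : volume B = ENNReal.ofReal |LinearMap.det (L : E d →ₗ[ℝ] E d)| * V := by
    rw [hB, hV]
    exact Measure.addHaar_image_linearMap (volume : Measure (E d)) (L : E d →ₗ[ℝ] E d) Om
  -- the bound for each radius
  have key : ∀ R : ℝ, 0 < R →
      (({t ∈ T | (((fun x => t + x) '' K) ∩ ((fun x => R • x) '' Om)).Nonempty}.encard : ℕ∞)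
        : ℝ≥0∞) ≤ ENNReal.ofReal (W ((fun x => (R + κ) • x) '' B)) := by
    intro R hR
    obtain ⟨Q, hQ⟩ : ∃ Q : Set (E d), Q = (fun x => (R + κ) • x) '' B := ⟨_, rfl⟩
    have hQc : IsCompact Q := by
      rw [hQ]; exact hBc.image (continuous_const_smul _)
    have hQv : Convex ℝ Q := by
      rw [hQ, hB]
      have h1 : Convex ℝ ((fun x => L x) '' Om) := hOv.linear_image (L : E d →ₗ[ℝ] E d)
      exact h1.smul (R + κ)
    have hQn : Q.Nonempty := by
      rw [hQ]; exact hBn.image _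
    obtain ⟨TR, hTR⟩ : ∃ TR : Set (E d),
        TR = {t ∈ T | (((fun x => t + x) '' K) ∩ ((fun x => R • x) '' Om)).Nonempty} :=
      ⟨_, rfl⟩
    have hmem : ∀ t ∈ TR, L t ∈ Q := by
      intro t ht
      rw [hTR] at ht
      obtain ⟨-, y, ⟨k, hk, hky⟩, ⟨z, hz, hzy⟩⟩ := ht
      obtain ⟨z', hz', hkz⟩ := hκ k hk
      simp only at hky hzy
      have ht : t = R • z + κ • z' := by
        rw [← hkz, hzy, ← hky]
        abel
      have hRκ : 0 < R + κ := by linarith
      have hw : (R / (R + κ)) • z + (κ / (R + κ)) • z' ∈ Om := by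
        refine hOv hz hz' (by positivity) (by positivity) ?_
        rw [← add_div, div_self hRκ.ne']
      rw [hQ, hB]
      refine ⟨L ((R / (R + κ)) • z + (κ / (R + κ)) • z'), ⟨_, hw, rfl⟩, ?_⟩
      simp only
      rw [← map_smul, smul_add, smul_smul, smul_smul, mul_div_cancel₀ _ hRκ.ne',
        mul_div_cancel₀ _ hRκ.ne', ← ht]
    have hcard : ∀ S : Finset (E d), (S : Set (E d)) ⊆ TR → (S.card : ℝ) ≤ W Q := by
      intro S hS
      refine H Q S hQc hQv hQn (fun t ht => ?_) (fun u hu => hmem u (hS hu))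
      have := hS ht
      rw [hTR] at this
      exact this.1
    have hfin : TR.Finite := by
      by_contra hc
      obtain ⟨n, hn⟩ := exists_nat_gt (W Q)
      obtain ⟨S, hS, hSn⟩ := Set.Infinite.exists_subset_card_eq hc n
      have := hcard S hS
      rw [hSn] at this
      linarith
    rw [← hTR, ← hQ, hfin.encard_eq_coe_toFinset_card]
    have h1 := hcard hfin.toFinset (by simp)
    have h2 := ENNReal.ofReal_le_ofReal h1
    rw [ENNReal.ofReal_natCast] at h2
    exact_mod_cast h2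
  -- the limit
  have hlim1 : Tendsto (fun R : ℝ => W ((fun x => (R + κ) • x) '' B) / R ^ d) atTop
      (𝓝 (volume B).toReal) := by
    have t1 : Tendsto (fun R : ℝ => W ((fun x => (R + κ) • x) '' B) / (R + κ) ^ d) atTop
        (𝓝 (volume B).toReal) :=
      hAs.comp (tendsto_atTop_add_const_right _ κ tendsto_id)
    have t2 : Tendsto (fun R : ℝ => (1 + κ / R) ^ d) atTop (𝓝 1) := by
      have h3 : Tendsto (fun R : ℝ => κ / R) atTop (𝓝 0) :=
        tendsto_const_nhds.div_atTop tendsto_id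
      have h4 := (h3.const_add 1).pow d
      simpa using h4
    have t3 := t1.mul t2
    rw [mul_one] at t3
    refine t3.congr' ?_
    filter_upwards [eventually_gt_atTop (0 : ℝ)] with R hR
    have hR1 : (R + κ) ≠ 0 := by positivity
    have : (1 + κ / R) = (R + κ) / R := by field_simp
    rw [this, div_pow]
    field_simp
  have hlim2 : Tendsto (fun R : ℝ => ENNReal.ofReal (W ((fun x => (R + κ) • x) '' B) / R ^ d) / V)
      atTop (𝓝 (ENNReal.ofReal (volume B).toReal / V)) := by
    refine ENNReal.Tendsto.div_const ?_ (Or.inr hV0)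
    exact (ENNReal.continuous_ofReal.tendsto _).comp hlim1
  have hval : ENNReal.ofReal (volume B).toReal / V =
      ENNReal.ofReal |LinearMap.det (L : E d →ₗ[ℝ] E d)| := by
    rw [ENNReal.ofReal_toReal hBc.measure_lt_top.ne, hBvol, mul_div_assoc,
      ENNReal.div_self hV0 hVt, mul_one]
  rw [← hval, ← hlim2.limsup_eq]
  refine limsup_le_limsup ?_
  filter_upwards [eventually_gt_atTop (0 : ℝ)] with R hR
  have hb : volume ((fun x => R • x) '' Om) = ENNReal.ofReal (R ^ d) * V := by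
    have h1 := Measure.addHaar_smul (volume : Measure (E d)) R Om
    have h2 : ((fun x : E d => R • x) '' Om) = R • Om := rfl
    rw [h2, h1, hV, abs_of_pos (pow_pos hR _)]
    simp [E]
  have hRd : (0 : ℝ) < R ^ d := pow_pos hR d
  calc (({t ∈ T | (((fun x => t + x) '' K) ∩ ((fun x => R • x) '' Om)).Nonempty}.encard : ℕ∞)
        : ℝ≥0∞) / volume ((fun x => R • x) '' Om)
      ≤ ENNReal.ofReal (W ((fun x => (R + κ) • x) '' B)) / (ENNReal.ofReal (R ^ d) * V) := by
        rw [hb]
        gcongr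
        exact key R hR
    _ = _ := by
        rw [ENNReal.ofReal_div_of_pos hRd, ENNReal.div_eq_inv_mul, ENNReal.div_eq_inv_mul,
          ENNReal.div_eq_inv_mul, ENNReal.mul_inv]
        · ring
        · right; exact hVt
        · left; exact ENNReal.ofReal_ne_top

end Pool.Agent.H97.TS
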